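import Pool.Agent.W3.World

/-!
# The interface between the order theory and the finite search

A `World P r` collects everything the finite search uses about a finite poset `r` of width `P.w`
which is not a linear sum and whose balance constant is below `P.tp / P.tq`.

* `G D` is the number of linear extensions of the complement of the down-set `D`,
* `e D` is the number of linear extensions of the down-set `D`,
* `pos` is the majority order.
-/

set_option autoImplicit false

namespace Pool.Agent.WN

open Finset Pool.Agent.W3

/-- parameters: the width, the threshold `tp / tq`, the table of the spine constants (numerators,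
denominator `10 ^ 6`) and a lower bound for the values of the table which occur -/
structure Par where
  w : ℕ
  tp : ℕ
  tq : ℕ
  cst : ℕ → ℕ → ℕ
  cmin : ℕ

variable {V : Type} [Fintype V] [DecidableEq V]

open Classical in
/-- what the search uses about a poset -/
structure World (P : Par) (r : V → V → Prop) where
  /-- a partial order -/
  po : Po r
  w2 : 2 ≤ P.w
  /-- no antichain with more than `w` elements -/
  wid : ∀ s : Finset V, (∀ a ∈ s, ∀ b ∈ s, a ≠ b → ¬ r a b) → s.card ≤ P.w
  /-- an antichain with `w` elements -/
  anti : ∃ s : Finset V, (∀ a ∈ s, ∀ b ∈ s, a ≠ b → ¬ r a b) ∧ s.card = P.w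
  /-- not a linear sum -/
  indec : ∀ X : Finset V, Dn r X → X ≠ ∅ → X ≠ univ → ∃ a ∈ X, ∃ b, b ∉ X ∧ ¬ r a b
  /-- number of linear extensions of the complement -/
  G : Finset V → ℕ
  /-- number of linear extensions -/
  e : Finset V → ℕ
  G_pos : ∀ D, Dn r D → 0 < G D
  harm : ∀ D, Dn r D → D ≠ univ → G D = ∑ a ∈ nx r D, G (insert a D)
  e_empty : e ∅ = 1
  e_rec : ∀ D, Dn r D → D ≠ ∅ → e D = ∑ a ∈ pv r D, e (D.erase a)
  /-- the hazard of `w` is monotone -/
  haz : ∀ D E w, Dn r D → Dn r E → D ⊆ E → w ∉ E → Dn r (insert w D) →
    G (insert w D) * G E ≤ G (insert w E) * G D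
  /-- the majority order -/
  pos : V → ℕ
  pos_inj : Function.Injective pos
  pos_mono : ∀ a b, r a b → pos a ≤ pos b
  pos_lt : ∀ a, pos a < Fintype.card V
  /-- `b` comes before `a` with probability at most `tp / tq` -/
  maj : ∀ a b, pos a < pos b →
    P.tq * ∑ D ∈ univ.filter (fun D => Dn r D ∧ a ∉ D ∧ b ∉ D ∧ Dn r (insert b D)),
      e D * G (insert b D) ≤ P.tp * G ∅
  /-- the spine lemma -/
  cmin : ∀ w, P.cmin ≤ P.cst (nbl r pos w) (nab r pos w)
  spine : ∀ w, P.cst (nbl r pos w) (nab r pos w) * G ∅ ≤
    1000000 * (e (before pos w) * G (insert w (before pos w)))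

end Pool.Agent.WN
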