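import Pool.Agent.WN.State
import Pool.Agent.W3.LeafSound

/-!
# The leaf, with parameters

The rows of a certificate are compiled into sparse coefficients `Sp` and edge terms `ET`, which
are checked by a numerical leaf.  Only the majority rows depend on the threshold `P.tp / P.tq`.
-/

set_option autoImplicit false

namespace Pool.Agent.WN

open Finset Pool.Agent.W3

section

variable {V : Type} [Fintype V] [DecidableEq V] {r : V → V → Prop} {φ : ℕ → V} {dn sat : List ℕ}
  {P : Par}

/-- **The bridge.** -/
theorem lsem (W : World P r) (hB : Base r φ dn sat) :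
    LSem dn.length (dnf dn) (SatF dn.length sat) (fun F => W.G (F.image φ))
      (fun F => W.e (F.image φ)) := by
  have hne : ∀ D ∈ Idl dn.length (dnf dn), D ≠ range dn.length → D.image φ ≠ univ := by
    intro D hD h h'
    apply h
    refine Subset.antisymm (mem_Idl.1 hD).1 fun i hi => ?_
    rw [← hB.mem_image (mem_Idl.1 hD).1 (mem_range.1 hi), h']
    exact mem_univ _
  have hsum : ∀ D ∈ Idl dn.length (dnf dn),
      ∑ b ∈ (range dn.length).filter (fun b => b ∉ D ∧ dnf dn b ⊆ D), W.G ((insert b D).image φ) =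
      ∑ a ∈ nx r (D.image φ) ∩ (range dn.length).image φ, W.G (insert a (D.image φ)) := by
    intro D hD
    rw [hB.nx_inter hD, sum_image (hB.injOn (filter_subset _ _))]
    exact sum_congr rfl fun b _ => by rw [image_insert]
  refine ⟨?_, ?_, ?_, ?_, ?_⟩
  · rw [image_empty]
    exact W.G_pos ∅ (by intro x hx; exact absurd hx (notMem_empty x))
  · intro D hD
    rw [hsum D hD]
    by_cases h : D.image φ = univ
    · rw [h, nx_univ_br, empty_inter, sum_empty]
      exact Nat.zero_le _
    · rw [W.harm _ ((hB.dn_iff (mem_Idl.1 hD).1).2 hD) h]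
      exact sum_le_sum_of_subset inter_subset_left
  · rintro D hD ⟨h1, s, hs, hDs⟩
    rw [hsum D hD, W.harm _ ((hB.dn_iff (mem_Idl.1 hD).1).2 hD) (hne D hD h1)]
    congr 1
    rw [inter_eq_left]
    intro a ha
    by_contra hc
    obtain ⟨u, h2, h3, h4⟩ := hB.sat s hs a fun i hi h => hc (by
      rw [← h]
      exact mem_image_of_mem φ (mem_range.2 hi))
    have h5 := (mem_nx_br.1 ha).2 a (mem_insert_self _ _) u h2
    rcases mem_insert.1 h5 with h6 | h6
    · exact h3 h6
    · exact h4 (image_subset_image hDs h6)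
  · rw [image_empty]
    exact W.e_empty
  · intro D hD h
    rw [W.e_rec _ ((hB.dn_iff (mem_Idl.1 hD).1).2 hD) (by simpa using h), hB.pv_eq hD,
      sum_image (hB.injOn ((filter_subset _ _).trans (mem_Idl.1 hD).1))]
    exact sum_congr rfl fun x hx => by
      rw [hB.image_erase (mem_Idl.1 hD).1 (mem_filter.1 hx).1]

/-- **The majority row.** -/
theorem majOk (W : World P r) (hB : Base r φ dn sat) {a b : ℕ} (ha : a < dn.length)
    (hb : b < dn.length) (hab : W.pos (φ a) < W.pos (φ b)) :
    P.tq * ∑ D ∈ (Idl dn.length (dnf dn)).filter (fun D => a ∉ D ∧ b ∉ D ∧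
      insert b D ∈ Idl dn.length (dnf dn)), W.e (D.image φ) * W.G ((insert b D).image φ) ≤
      P.tp * W.G ∅ := by
  classical
  refine le_trans (Nat.mul_le_mul_left _ ?_) (W.maj (φ a) (φ b) hab)
  have h1 : ∑ D ∈ (Idl dn.length (dnf dn)).filter (fun D => a ∉ D ∧ b ∉ D ∧
      insert b D ∈ Idl dn.length (dnf dn)), W.e (D.image φ) * W.G ((insert b D).image φ) =
      ∑ D ∈ ((Idl dn.length (dnf dn)).filter (fun D => a ∉ D ∧ b ∉ D ∧
      insert b D ∈ Idl dn.length (dnf dn))).image (fun D => D.image φ),
        W.e D * W.G (insert (φ b) D) := by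
    rw [sum_image]
    · refine sum_congr rfl fun D _ => ?_
      rw [image_insert]
    · intro D hD D' hD' h
      exact image_inj hB (mem_Idl.1 (mem_filter.1 (mem_coe.1 hD)).1).1
        (mem_Idl.1 (mem_filter.1 (mem_coe.1 hD')).1).1 h
  rw [h1]
  refine sum_le_sum_of_subset_of_nonneg ?_ fun _ _ _ => Nat.zero_le _
  intro X hX
  obtain ⟨D, hD, rfl⟩ := Finset.mem_image.1 hX
  obtain ⟨h2, h3, h4, h5⟩ := mem_filter.1 hD
  have h6 := (mem_Idl.1 h2).1
  refine mem_filter.2 ⟨mem_univ _, (hB.dn_iff h6).2 h2, ?_, ?_, ?_⟩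
  · rwa [hB.mem_image h6 ha]
  · rwa [hB.mem_image h6 hb]
  · rw [← image_insert, hB.dn_iff (insert_subset (mem_range.2 hb) h6)]
    exact h5

end

/-- the sparse coefficients of the rows -/
noncomputable def spCP (tp : ℕ) (rows : List (Row × ℕ)) : List Sp :=
  List.rec (motive := fun _ => List Sp) []
    (fun t _ ih => Row.rec (motive := fun _ => List Sp)
      (fun _ _ => (⟨0, Nat.mul tp t.2, 0⟩ : Sp) :: ih)
      (fun _ _ c => (⟨0, 0, Nat.mul c t.2⟩ : Sp) :: ih)
      (fun L R => spL L t.2 (spR R t.2 ih)) t.1) rows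

/-- the edge terms of the negative side; `K` is the mask of all known elements -/
noncomputable def neCP (tq K : ℕ) (rows : List (Row × ℕ)) : List ET :=
  List.rec (motive := fun _ => List ET) []
    (fun t _ ih => Row.rec (motive := fun _ => List ET)
      (fun a b => (⟨b, 0, [Nat.xor K (Nat.shiftLeft 1 a)], Nat.mul tq t.2⟩ : ET) :: ih)
      (fun _ _ _ => ih)
      (fun _ _ => ih) t.1) rows

section

variable {V : Type} [Fintype V] [DecidableEq V] {r : V → V → Prop} {φ : ℕ → V} {dn sat : List ℕ}
  {P : Par}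

/-- all masks of the compiled rows are ideals -/
theorem spCP_mem (W : World P r) (hB : Base r φ dn sat) (rows : List (Row × ℕ))
    (h : ∀ ρ ∈ rows, RowOk W φ dn.length ρ.1) :
    ∀ s ∈ spCP P.tp rows, bs s.mask ∈ Idl dn.length (dnf dn) := by
  have hem : bs 0 ∈ Idl dn.length (dnf dn) := by
    rw [bs_zero]
    exact mem_Idl.2 ⟨empty_subset _, by simp⟩
  induction rows with
  | nil => exact fun s hs => absurd hs (List.not_mem_nil)
  | cons t rows ih =>
    have ih' := ih fun ρ hρ => h ρ (List.mem_cons_of_mem _ hρ)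
    have ht := h t (List.mem_cons_self ..)
    obtain ⟨ρ, w⟩ := t
    intro s hs
    cases ρ with
    | maj a b =>
      rcases List.mem_cons.1 hs with hs | hs
      · rw [hs]; exact hem
      · exact ih' s hs
    | spn X x c =>
      rcases List.mem_cons.1 hs with hs | hs
      · rw [hs]; exact hem
      · exact ih' s hs
    | gen L R =>
      obtain ⟨h1, h2, -⟩ := ht
      rcases mem_spL hs with ⟨p, hp, hm⟩ | hs
      · rw [hm]; exact bs_mem_Idl hB (h1 p hp).1 (h1 p hp).2
      · rcases mem_spR hs with ⟨p, hp, hm⟩ | hs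
        · rw [hm]; exact bs_mem_Idl hB (h2 p hp).1 (h2 p hp).2
        · exact ih' s hs

/-- the rows, compiled -/
theorem rowsP_le (W : World P r) (hB : Base r φ dn sat) (K : ℕ)
    (hK : ∀ i, i < dn.length ↔ K.testBit i = true) (rows : List (Row × ℕ))
    (h : ∀ ρ ∈ rows, RowOk W φ dn.length ρ.1) :
    ((spCP P.tp rows).map fun s => s.neg * W.G ((bs s.mask).image φ)).sum +
      ((neCP P.tq K rows).map fun t => t.w * esum dn.length (dnf dn) (fun F => W.G (F.image φ))
        (fun F => W.e (F.image φ)) t).sum ≤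
    ((spCP P.tp rows).map fun s => s.pos * W.G ((bs s.mask).image φ)).sum +
      ((peC rows).map fun t => t.w * esum dn.length (dnf dn) (fun F => W.G (F.image φ))
        (fun F => W.e (F.image φ)) t).sum := by
  induction rows with
  | nil => exact le_rfl
  | cons t rows ih =>
    have ih' := ih fun ρ hρ => h ρ (List.mem_cons_of_mem _ hρ)
    have ht := h t (List.mem_cons_self ..)
    clear ih h
    obtain ⟨ρ, w⟩ := t
    cases ρ with
    | maj a b =>
      obtain ⟨ha, hb, hab⟩ := ht
      have h1 : spCP P.tp ((Row.maj a b, w) :: rows) = (⟨0, P.tp * w, 0⟩ : Sp) :: spCP P.tp rows := rfl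
      have h2 : neCP P.tq K ((Row.maj a b, w) :: rows) =
        (⟨b, 0, [Nat.xor K (Nat.shiftLeft 1 a)], P.tq * w⟩ : ET) :: neCP P.tq K rows := rfl
      have h3 : peC ((Row.maj a b, w) :: rows) = peC rows := rfl
      rw [h1, h2, h3]
      simp only [List.map_cons, List.sum_cons, bs_zero, image_empty, zero_mul, zero_add]
      have h4 := majOk W hB ha hb hab
      have h5 : esum dn.length (dnf dn) (fun F => W.G (F.image φ)) (fun F => W.e (F.image φ))
          ⟨b, 0, [Nat.xor K (Nat.shiftLeft 1 a)], P.tq * w⟩ =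
          ∑ D ∈ (Idl dn.length (dnf dn)).filter (fun D => a ∉ D ∧ b ∉ D ∧
            insert b D ∈ Idl dn.length (dnf dn)), W.e (D.image φ) * W.G ((insert b D).image φ) := by
        refine esum_eq _ _ _ _ _ _ fun D => ?_
        rw [mem_filter]
        refine and_congr_right fun hD => ?_
        have hDr := (mem_Idl.1 hD).1
        refine Iff.symm ?_
        constructor
        · rintro ⟨-, h6, h7, -, hi, h8, h9⟩
          rw [List.mem_singleton] at h8
          subst h8
          refine ⟨fun h10 => ?_, h6, (hB.mem_Idl_insert hD hb h6).2 h7⟩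
          have h11 := h9 h10
          rw [mem_bs] at h11
          have h12 : (K ^^^ (1 <<< a)).testBit a = true := h11
          rw [Nat.testBit_xor, (hK a).1 ha, Nat.one_shiftLeft, Nat.testBit_two_pow_self] at h12
          exact absurd h12 (by decide)
        · rintro ⟨h6, h7, h8⟩
          refine ⟨hb, h7, (hB.mem_Idl_insert hD hb h7).1 h8, ?_, _, List.mem_singleton.2 rfl, ?_⟩
          · rw [bs_zero]
            exact empty_subset _
          · intro i hi
            rw [mem_bs]
            show (K ^^^ (1 <<< a)).testBit i = true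
            have hia : a ≠ i := fun h => h6 (by rwa [h])
            rw [Nat.testBit_xor, (hK i).1 (mem_range.1 (hDr hi)), Nat.one_shiftLeft,
              Nat.testBit_two_pow_of_ne hia]
            rfl
      rw [h5]
      have h6 := Nat.mul_le_mul_right w h4
      have e1 : P.tq * w * ∑ D ∈ (Idl dn.length (dnf dn)).filter (fun D => a ∉ D ∧ b ∉ D ∧
            insert b D ∈ Idl dn.length (dnf dn)), W.e (D.image φ) * W.G ((insert b D).image φ) =
          P.tq * (∑ D ∈ (Idl dn.length (dnf dn)).filter (fun D => a ∉ D ∧ b ∉ D ∧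
            insert b D ∈ Idl dn.length (dnf dn)), W.e (D.image φ) * W.G ((insert b D).image φ)) *
            w := by ring
      have e2 : P.tp * w * W.G ∅ = P.tp * W.G ∅ * w := by ring
      rw [e1, e2]
      omega
    | spn X x c =>
      obtain ⟨hX, hx, hdX, hxX, hdx, hc⟩ := ht
      have h1 : spCP P.tp ((Row.spn X x c, w) :: rows) = (⟨0, 0, c * w⟩ : Sp) :: spCP P.tp rows := rfl
      have h2 : neCP P.tq K ((Row.spn X x c, w) :: rows) = neCP P.tq K rows := rfl
      have h3 : peC ((Row.spn X x c, w) :: rows) =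
        (⟨x, X, [X], 1000000 * w⟩ : ET) :: peC rows := rfl
      rw [h1, h2, h3]
      simp only [List.map_cons, List.sum_cons, bs_zero, image_empty, zero_mul, zero_add]
      have hXI := bs_mem_Idl hB hX hdX
      have hXr := (mem_Idl.1 hXI).1
      have hxX' : x ∉ bs X := fun h => hxX (mem_image_of_mem φ h)
      have h5 : esum dn.length (dnf dn) (fun F => W.G (F.image φ)) (fun F => W.e (F.image φ))
          ⟨x, X, [X], 1000000 * w⟩ = W.e (im φ X) * W.G (insert (φ x) (im φ X)) := by
        rw [esum_eq _ _ _ _ _ {bs X} fun D => ?_]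
        · rw [sum_singleton]
          dsimp only
          rw [image_insert]
          rfl
        · rw [mem_singleton]
          constructor
          · intro hD
            subst hD
            refine ⟨hXI, hx, hxX', ?_, Subset.refl _, X, List.mem_singleton.2 rfl,
              Subset.refl _⟩
            rw [im_eq, ← image_insert,
              hB.dn_iff (insert_subset (mem_range.2 hx) hXr)] at hdx
            exact (hB.mem_Idl_insert hXI hx hxX').1 hdx
          · rintro ⟨-, -, -, -, h6, hi, h7, h8⟩
            rw [List.mem_singleton] at h7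
            subst h7
            exact Subset.antisymm h8 h6
      rw [h5]
      have h6 := Nat.mul_le_mul_right w hc
      have e1 : c * w * W.G ∅ = c * W.G ∅ * w := by ring
      have e2 : 1000000 * w * (W.e (im φ X) * W.G (insert (φ x) (im φ X))) =
          1000000 * (W.e (im φ X) * W.G (insert (φ x) (im φ X))) * w := by ring
      rw [e1, e2]
      omega
    | gen L R =>
      obtain ⟨-, -, hc⟩ := ht
      have h1 : spCP P.tp ((Row.gen L R, w) :: rows) = spL L w (spR R w (spCP P.tp rows)) := rfl
      have h2 : neCP P.tq K ((Row.gen L R, w) :: rows) = neCP P.tq K rows := rfl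
      have h3 : peC ((Row.gen L R, w) :: rows) = peC rows := rfl
      rw [h1, h2, h3, sum_spL_neg (fun m => W.G ((bs m).image φ)),
        sum_spL_pos (fun m => W.G ((bs m).image φ)), sum_spR_neg (fun m => W.G ((bs m).image φ)),
        sum_spR_pos (fun m => W.G ((bs m).image φ))]
      have h6 := Nat.mul_le_mul_right w hc
      simp only [im_eq] at h6
      omega

end

/-- what is wanted from the numerical leaf -/
def NleafOk (nl : List (List ℕ) → List ℕ → List ℕ → List ET → List ET → List Sp → Bool) : Prop :=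
  ∀ (cs : List (List ℕ)) (dn sat : List ℕ) (pe ne : List ET) (sp : List Sp) (e : Finset ℕ → ℕ),
    (∀ x < dn.length, dn.getD x 0 < 2 ^ x) →
    (∀ x < dn.length, ∀ y ∈ dnf dn x, dnf dn y ⊆ dnf dn x) →
    e ∅ = 1 →
    (∀ D ∈ Idl dn.length (dnf dn), D ≠ ∅ →
      e D = ∑ x ∈ D.filter (fun x => D.erase x ∈ Idl dn.length (dnf dn)), e (D.erase x)) →
    nl cs dn sat pe ne sp = true →
    ∃ A N : Finset ℕ → ℕ,
      (∀ F ∈ Idl dn.length (dnf dn), A F = kpos dn.length (dnf dn) e pe sp F +
        ∑ x ∈ F.filter (fun x => F.erase x ∈ Idl dn.length (dnf dn)), A (F.erase x)) ∧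
      (∀ F ∈ Idl dn.length (dnf dn), N F = kneg dn.length (dnf dn) e ne sp F +
        ∑ x ∈ F.filter (fun x => F.erase x ∈ Idl dn.length (dnf dn)), N (F.erase x)) ∧
      ∀ F ∈ Idl dn.length (dnf dn), ¬ SatF dn.length sat F → A F ≤ N F

/-- the leaf from the numerical leaf; `tp / tq` is the threshold -/
noncomputable def mkLeafP (tp tq : ℕ)
    (nl : List (List ℕ) → List ℕ → List ℕ → List ET → List ET → List Sp → Bool) : LeafT :=
  fun cs dn sat rows => nl cs dn sat (peC rows) (neCP tq (fullK dn) rows) (spCP tp rows)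

/-- **Soundness of the leaf** from the soundness of the numerical leaf. -/
theorem mkLeafP_sound (P : Par) {tp tq : ℕ} (hp : P.tp = tp) (hq : P.tq = tq)
    {nl : List (List ℕ) → List ℕ → List ℕ → List ET → List ET → List Sp → Bool}
    (hn : NleafOk nl) : LeafSound P (mkLeafP tp tq nl) := by
  subst hp hq
  intro V _ _ r W φ cs dn sat rows hB hrows hleaf
  have hL := lsem W hB
  obtain ⟨A, N, hA, hN, hle⟩ := hn cs dn sat _ _ _ (fun F => W.e (F.image φ))
    (fun x hx => (hB.getD hx).1) (fun x hx y hy => hB.trans W.po hx hy) hL.e_empty hL.e_rec hleaf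
  exact leaf_rows hB.notMem hL (peC rows) (neCP P.tq (fullK dn) rows) (spCP P.tp rows)
    (spCP_mem W hB rows hrows) (rowsP_le W hB _ (fullK_iff dn) rows hrows) A N hA hN hle

/-- the numerical leaf with three chains -/
noncomputable def nl3 (cs : List (List ℕ)) (dn sat : List ℕ) (pe ne : List ET) (sp : List Sp) :
    Bool :=
  match cs with
  | [c1, c2, c3] => Leaf.nleaf c1 c2 c3 dn sat pe ne sp
  | _ => false

theorem nl3_ok : NleafOk nl3 := by
  intro cs dn sat pe ne sp e h1 h2 h3 h4 h
  unfold nl3 at h
  split at h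
  · exact Leaf.nleaf_sound _ _ _ dn sat pe ne sp e h1 h2 h3 h4 h
  · exact absurd h Bool.false_ne_true

/-- the leaf for three chains and the threshold `tp / tq` -/
noncomputable def leaf3 (tp tq : ℕ) : LeafT := mkLeafP tp tq nl3

theorem leaf3_sound (P : Par) {tp tq : ℕ} (hp : P.tp = tp) (hq : P.tq = tq) :
    LeafSound P (leaf3 tp tq) := mkLeafP_sound P hp hq nl3_ok

end Pool.Agent.WN
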