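import Pool.Agent.WN.World
import Pool.Agent.W3.Cut

/-!
# Cut rows, with parameters
-/

set_option autoImplicit false

namespace Pool.Agent.WN

open Finset Pool.Agent.W3

section

variable {V : Type} [Fintype V] [DecidableEq V] {r : V → V → Prop} {P : Par}

variable (W : World P r)

namespace World

include W in
theorem step_le {D : Finset V} (hD : Dn r D) {a : V} (ha : a ∈ nx r D) :
    W.G (insert a D) ≤ W.G D := by
  have hne : D ≠ univ := fun h => (mem_nx_ct.1 ha).1 (h ▸ mem_univ a)
  rw [W.harm D hD hne]
  exact single_le_sum (f := fun a => W.G (insert a D)) (fun b _ => Nat.zero_le _) ha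

/-- the sum over the successors is at most the value -/
theorem sum_nx_le {D : Finset V} (hD : Dn r D) :
    ∑ a ∈ nx r D, W.G (insert a D) ≤ W.G D := by
  by_cases h : D = univ
  · have h1 : nx r D = ∅ := by
      ext a
      rw [mem_nx_ct, h]
      simp
    rw [h1, sum_empty]
    exact Nat.zero_le _
  · exact (W.harm D hD h).ge

theorem cnt_le {X : Finset V} {w : V} (hX : Dn r X) (hw : w ∉ X) (hwX : Dn r (insert w X))
    (k : ℕ) {D : Finset V} (hD : Dn r D) : cnt r X (W.G (insert w X)) k D ≤ W.G D := by
  induction k generalizing D with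
  | zero =>
    unfold cnt
    split_ifs with h
    · rw [h]
      exact W.step_le hX (mem_nx_ct.2 ⟨hw, hwX⟩)
    · exact Nat.zero_le _
  | succ k ih =>
    refine le_trans (sum_le_sum fun a ha => ih (mem_nx_ct.1 ha).2) (W.sum_nx_le hD)

theorem cnt_le' {X : Finset V} {w : V} (hw : w ∉ X)
    (k : ℕ) {D : Finset V} (hD : Dn r D) (hwD : w ∉ D) (hwD' : Dn r (insert w D)) :
    cnt r X (W.G (insert w X)) k D ≤ W.G (insert w D) := by
  induction k generalizing D with
  | zero =>
    unfold cnt
    split_ifs with h
    · rw [h]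
    · exact Nat.zero_le _
  | succ k ih =>
    have h1 : ∀ a ∈ nx r D, cnt r X (W.G (insert w X)) k (insert a D) ≤
        if a = w then 0 else W.G (insert w (insert a D)) := by
      intro a ha
      obtain ⟨ha1, ha2⟩ := mem_nx_ct.1 ha
      split_ifs with h
      · rw [cnt_eq_zero k]
        intro h'
        exact hw (h' (mem_insert.2 (Or.inl h.symm)))
      · refine ih ha2 ?_ (Pool.Agent.W3.World.dn_insert2 ha2 hwD')
        rw [mem_insert, not_or]
        exact ⟨fun h' => h h'.symm, hwD⟩
    refine (sum_le_sum h1).trans ?_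
    rw [← sum_filter_add_sum_filter_not (nx r D) (fun a => a = w)]
    rw [sum_eq_zero (s := (nx r D).filter fun a => a = w) fun a ha => if_pos (mem_filter.1 ha).2,
      zero_add]
    rw [sum_congr rfl fun a ha => if_neg (mem_filter.1 ha).2]
    refine le_trans ?_ (W.sum_nx_le hwD')
    have h2 : ∀ a ∈ (nx r D).filter (fun a => ¬ a = w),
        W.G (insert w (insert a D)) = W.G (insert a (insert w D)) := fun a _ => by
      rw [insert_comm]
    rw [sum_congr rfl h2]
    refine sum_le_sum_of_subset fun a ha => ?_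
    obtain ⟨h3, h4⟩ := mem_filter.1 ha
    obtain ⟨h5, h6⟩ := mem_nx_ct.1 h3
    refine mem_nx_ct.2 ⟨?_, ?_⟩
    · rw [mem_insert, not_or]
      exact ⟨h4, h5⟩
    · rw [insert_comm]
      exact Pool.Agent.W3.World.dn_insert2 h6 hwD'

open Classical in
/-- the capacity of an edge into `E` for the element `w` -/
noncomputable def capG (w : V) (E : Finset V) : ℕ :=
  if Dn r (insert w E) then W.G (insert w E) else W.G E

theorem flo_le_capG {X : Finset V} {w : V} (hX : Dn r X) (hw : w ∉ X)
    (hwX : Dn r (insert w X)) {D : Finset V} (hD : Dn r D) (hwD : w ∉ D) :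
    flo r X (W.G (insert w X)) D ≤ W.capG w D := by
  unfold capG flo
  split_ifs with h
  · exact W.cnt_le' hw _ hD hwD h
  · exact W.cnt_le hX hw hwX _ hD

theorem capG_le {w : V} {D : Finset V} (hD : Dn r D) (hwD : w ∉ D) :
    W.capG w D ≤ W.G D := by
  unfold capG
  split_ifs with h
  · exact W.step_le hD (mem_nx_ct.2 ⟨hwD, h⟩)
  · exact le_rfl

open Classical in
/-- the flow starts with `e X * g` -/
theorem flo_empty {X : Finset V} (hX : Dn r X) (g : ℕ) : W.e X * g ≤ flo r X g ∅ := by
  have key : ∀ k ≤ X.card, ∑ E ∈ univ.filter (fun E => Dn r E),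
      (if E.card = k then W.e E * flo r X g E else 0) = flo r X g ∅ := by
    intro k
    induction k with
    | zero =>
      intro _
      rw [sum_eq_single (∅ : Finset V)]
      · rw [if_pos card_empty, W.e_empty, one_mul]
      · intro E _ hE
        rw [if_neg]
        rw [card_eq_zero]
        exact hE
      · intro h
        exact absurd (mem_filter.2 ⟨mem_univ _, Pool.Agent.W3.World.dn_nil⟩) h
    | succ k ih =>
      intro hk
      rw [← ih (by omega)]
      have h1 : ∀ E ∈ univ.filter (fun E => Dn r E),
          (if E.card = k + 1 then W.e E * flo r X g E else 0) =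
          ∑ a ∈ pv r E, (fun D E : Finset V => if D.card = k then W.e D * flo r X g E else 0)
            (E.erase a) E := by
        intro E hE
        have hE' := (mem_filter.1 hE).2
        beta_reduce
        split_ifs with hc
        · have hne : E ≠ ∅ := by
            rintro rfl
            simp at hc
          rw [W.e_rec E hE' hne, sum_mul]
          refine sum_congr rfl fun a ha => ?_
          rw [if_pos]
          rw [card_erase_of_mem (mem_pv_ct.1 ha).1, hc]
          rfl
        · symm
          refine sum_eq_zero fun a ha => ?_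
          rw [if_neg]
          rw [card_erase_of_mem (mem_pv_ct.1 ha).1]
          intro h
          have := card_pos.2 ⟨a, (mem_pv_ct.1 ha).1⟩
          omega
      refine ((sum_congr rfl h1).trans (edge_sum (r := r)
        (fun D E : Finset V => if D.card = k then W.e D * flo r X g E else 0))).trans ?_
      refine sum_congr rfl fun D hD => ?_
      split_ifs with hc
      · have hne : D ≠ X := by
          rintro rfl
          omega
        rw [flo_rec hne, mul_sum]
      · exact sum_const_zero
  rw [← key X.card le_rfl]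
  have h2 : W.e X * g = if X.card = X.card then W.e X * flo r X g X else 0 := by
    rw [if_pos rfl, flo_self]
  rw [h2]
  exact single_le_sum (f := fun E : Finset V => if E.card = X.card then W.e E * flo r X g E else 0)
    (fun _ _ => Nat.zero_le _) (mem_filter.2 ⟨mem_univ _, hX⟩)

open Classical in
/-- the flow is at most the flow through a cut -/
theorem flo_cut {X : Finset V} (g : ℕ) {U : Finset (Finset V)} (h0 : ∅ ∈ U)
    (hU : ∀ D ∈ U, Dn r D) (hXU : X ∉ U) :
    flo r X g ∅ ≤ ∑ D ∈ U, W.e D * ∑ a ∈ (nx r D).filter (fun a => insert a D ∉ U),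
      flo r X g (insert a D) := by
  set S := univ.filter (fun D : Finset V => Dn r D) with hS
  have hUS : U ⊆ S := fun D hD => mem_filter.2 ⟨mem_univ _, hU D hD⟩
  -- the sum over U of e D f D, computed in two ways
  have h1 : ∑ D ∈ U, W.e D * flo r X g D =
      ∑ D ∈ U, W.e D * ∑ a ∈ (nx r D).filter (fun a => insert a D ∉ U), flo r X g (insert a D) +
      ∑ D ∈ U, W.e D * ∑ a ∈ (nx r D).filter (fun a => insert a D ∈ U),
        flo r X g (insert a D) := by
    rw [← sum_add_distrib]
    refine sum_congr rfl fun D hD => ?_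
    rw [← mul_add]
    congr 1
    have hne : D ≠ X := by
      rintro rfl
      exact hXU hD
    rw [flo_rec hne, add_comm]
    exact (sum_filter_add_sum_filter_not _ _ _).symm
  have h2 : ∑ D ∈ U, W.e D * ∑ a ∈ (nx r D).filter (fun a => insert a D ∈ U),
        flo r X g (insert a D) ≤ ∑ E ∈ U.erase ∅, W.e E * flo r X g E := by
    have h3 : ∑ D ∈ U, W.e D * ∑ a ∈ (nx r D).filter (fun a => insert a D ∈ U),
        flo r X g (insert a D) =
        ∑ D ∈ S, ∑ a ∈ nx r D, (fun D E : Finset V =>
          if D ∈ U ∧ E ∈ U then W.e D * flo r X g E else 0) D (insert a D) := by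
      symm
      rw [← sum_subset hUS]
      · refine sum_congr rfl fun D hD => ?_
        rw [mul_sum, sum_filter]
        refine sum_congr rfl fun a _ => ?_
        beta_reduce
        by_cases h : insert a D ∈ U
        · rw [if_pos ⟨hD, h⟩, if_pos h]
        · rw [if_neg fun h' => h h'.2, if_neg h]
      · intro D _ hD
        refine sum_eq_zero fun a _ => ?_
        beta_reduce
        rw [if_neg fun h' => hD h'.1]
    rw [h3, hS]
    refine (edge_sum (r := r) (fun D E : Finset V =>
          if D ∈ U ∧ E ∈ U then W.e D * flo r X g E else 0)).symm.le.trans ?_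
    have h4 : ∀ E ∈ S, ∑ a ∈ pv r E, (fun D E : Finset V =>
          if D ∈ U ∧ E ∈ U then W.e D * flo r X g E else 0) (E.erase a) E ≤
          if E ∈ U.erase ∅ then W.e E * flo r X g E else 0 := by
      intro E hE
      have hE' := (mem_filter.1 hE).2
      by_cases h : E ∈ U.erase ∅
      · rw [if_pos h]
        obtain ⟨h5, h6⟩ := mem_erase.1 h
        rw [W.e_rec E hE' h5, sum_mul]
        refine sum_le_sum fun a _ => ?_
        beta_reduce
        split_ifs
        · exact le_rfl
        · exact Nat.zero_le _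
      · rw [if_neg h]
        refine (sum_eq_zero fun a ha => ?_).le
        beta_reduce
        rw [if_neg]
        rintro ⟨-, h6⟩
        refine h (mem_erase.2 ⟨?_, h6⟩)
        rintro rfl
        exact absurd (mem_pv_ct.1 ha).1 (notMem_empty a)
    refine (sum_le_sum h4).trans ?_
    rw [← sum_filter]
    refine sum_le_sum_of_subset fun E hE => (mem_filter.1 hE).2
  have h7 : ∑ D ∈ U, W.e D * flo r X g D =
      flo r X g ∅ + ∑ E ∈ U.erase ∅, W.e E * flo r X g E := by
    rw [← add_sum_erase U _ h0, W.e_empty, one_mul]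
  omega

/-- the set before `w` is a down-set -/
theorem dn_before (w : V) : Dn r (before W.pos w) := by
  intro x hx y hy
  unfold before at hx ⊢
  rw [mem_filter] at hx ⊢
  exact ⟨mem_univ _, lt_of_le_of_lt (W.pos_mono y x hy) hx.2⟩

theorem notMem_before (w : V) : w ∉ before W.pos w := by
  unfold before
  rw [mem_filter]
  exact fun h => lt_irrefl _ h.2

theorem dn_before_insert (w : V) : Dn r (insert w (before W.pos w)) := by
  intro x hx y hy
  have hle : W.pos y ≤ W.pos w := by
    rw [mem_insert] at hx
    rcases hx with rfl | hx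
    · exact W.pos_mono y x hy
    · unfold before at hx
      rw [mem_filter] at hx
      exact (W.pos_mono y x hy).trans hx.2.le
  rcases hle.eq_or_lt with h | h
  · rw [mem_insert]
    exact Or.inl (W.pos_inj h)
  · rw [mem_insert]
    refine Or.inr ?_
    unfold before
    rw [mem_filter]
    exact ⟨mem_univ _, h⟩

open Classical in
/-- **The cut row.** -/
theorem cut (w : V) {U : Finset (Finset V)} (h0 : ∅ ∈ U) (hU : ∀ D ∈ U, Dn r D ∧ w ∉ D)
    (hX : before W.pos w ∉ U) :
    P.cst (nbl r W.pos w) (nab r W.pos w) * W.G ∅ ≤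
      1000000 * ∑ D ∈ U, W.e D *
        ∑ a ∈ (nx r D).filter (fun a => W.pos a < W.pos w ∧ insert a D ∉ U),
          W.capG w (insert a D) := by
  refine (W.spine w).trans (Nat.mul_le_mul_left _ ?_)
  refine (W.flo_empty (W.dn_before w) _).trans ?_
  refine (W.flo_cut _ h0 (fun D hD => (hU D hD).1) hX).trans ?_
  refine sum_le_sum fun D hD => Nat.mul_le_mul_left _ ?_
  have h1 : ∀ a ∈ (nx r D).filter (fun a => insert a D ∉ U),
      flo r (before W.pos w) (W.G (insert w (before W.pos w))) (insert a D) ≤
        if W.pos a < W.pos w ∧ insert a D ∉ U then W.capG w (insert a D) else 0 := by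
    intro a ha
    obtain ⟨h2, h3⟩ := mem_filter.1 ha
    obtain ⟨h4, h5⟩ := mem_nx_ct.1 h2
    by_cases h : W.pos a < W.pos w
    · rw [if_pos ⟨h, h3⟩]
      refine W.flo_le_capG (W.dn_before w) (W.notMem_before w) (W.dn_before_insert w) h5 ?_
      rw [mem_insert, not_or]
      refine ⟨fun h' => ?_, (hU D hD).2⟩
      rw [h'] at h
      exact lt_irrefl _ h
    · rw [if_neg fun h' => h h'.1, flo_eq_zero]
      intro h'
      have h6 := h' (mem_insert.2 (Or.inl rfl))
      unfold before at h6
      rw [mem_filter] at h6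
      exact h h6.2
  refine (sum_le_sum h1).trans ?_
  rw [← sum_filter, filter_filter]
  refine sum_le_sum_of_subset fun a ha => ?_
  obtain ⟨h2, h3⟩ := mem_filter.1 ha
  exact mem_filter.2 ⟨h2, h3.2⟩

/-- the node form: if `w` is minimal, the flow is at most `G {w}` -/
theorem cut_node {w : V} (hw : Dn r {w}) :
    P.cst (nbl r W.pos w) (nab r W.pos w) * W.G ∅ ≤ 1000000 * W.G {w} := by
  refine (W.spine w).trans (Nat.mul_le_mul_left _ ?_)
  refine (W.flo_empty (W.dn_before w) _).trans ?_
  have h1 : insert w (∅ : Finset V) = {w} := by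
    ext
    simp
  have h := W.cnt_le' (W.notMem_before w) ((before W.pos w).card - (∅ : Finset V).card)
    (D := ∅) Pool.Agent.W3.World.dn_nil (notMem_empty w) (by rwa [h1])
  rw [h1] at h
  exact h

open Classical in
/-- the unknown elements at a down-set `D` to which `w` can be added -/
theorem unknown_le {K D : Finset V} {w : V} (hw : w ∈ nx r D) (hwK : w ∈ K) :
    ∑ a ∈ (nx r D).filter (fun a => a ∉ K), W.capG w (insert a D) +
      ∑ a ∈ (nx r (insert w D)).filter (fun a => a ∈ K), W.G (insert a (insert w D)) ≤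
      W.G (insert w D) := by
  obtain ⟨h1, h2⟩ := mem_nx_ct.1 hw
  refine le_trans ?_ (W.sum_nx_le h2)
  rw [← sum_filter_add_sum_filter_not (nx r (insert w D)) (fun a => a ∈ K), add_comm]
  refine Nat.add_le_add_left ?_ _
  have h3 : ∀ a ∈ (nx r D).filter (fun a => a ∉ K), W.capG w (insert a D) =
      W.G (insert a (insert w D)) := by
    intro a ha
    obtain ⟨h4, h5⟩ := mem_filter.1 ha
    unfold capG
    rw [if_pos (Pool.Agent.W3.World.dn_insert2 (mem_nx_ct.1 h4).2 h2), insert_comm]
  rw [sum_congr rfl h3]
  refine sum_le_sum_of_subset fun a ha => ?_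
  obtain ⟨h4, h5⟩ := mem_filter.1 ha
  obtain ⟨h6, h7⟩ := mem_nx_ct.1 h4
  refine mem_filter.2 ⟨mem_nx_ct.2 ⟨?_, ?_⟩, h5⟩
  · rw [mem_insert, not_or]
    exact ⟨fun h => h5 (h ▸ hwK), h6⟩
  · rw [insert_comm]
    exact Pool.Agent.W3.World.dn_insert2 h7 h2

open Classical in
/-- the unknown elements at a down-set `D` -/
theorem unknown_le' {K D : Finset V} {w : V} (hD : Dn r D) (hwD : w ∉ D) (hwK : w ∈ K) :
    ∑ a ∈ (nx r D).filter (fun a => a ∉ K), W.capG w (insert a D) +
      ∑ a ∈ (nx r D).filter (fun a => a ∈ K), W.G (insert a D) ≤ W.G D := by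
  refine le_trans ?_ (W.sum_nx_le hD)
  rw [← sum_filter_add_sum_filter_not (nx r D) (fun a => a ∈ K), add_comm]
  refine Nat.add_le_add_left (sum_le_sum fun a ha => ?_) _
  obtain ⟨h4, h5⟩ := mem_filter.1 ha
  refine W.capG_le (mem_nx_ct.1 h4).2 ?_
  rw [mem_insert, not_or]
  exact ⟨fun h => h5 (h ▸ hwK), hwD⟩

open Classical in
/-- the cut row with the smallest constant -/
theorem cut' (w : V) {U : Finset (Finset V)} (h0 : ∅ ∈ U) (hU : ∀ D ∈ U, Dn r D ∧ w ∉ D)
    (hX : before W.pos w ∉ U) :
    P.cmin * W.G ∅ ≤ 1000000 * ∑ D ∈ U, W.e D *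
        ∑ a ∈ (nx r D).filter (fun a => W.pos a < W.pos w ∧ insert a D ∉ U),
          W.capG w (insert a D) :=
  (Nat.mul_le_mul_right _ (W.cmin w)).trans (W.cut w h0 hU hX)

theorem cut_node' {w : V} (hw : Dn r {w}) : P.cmin * W.G ∅ ≤ 1000000 * W.G {w} :=
  (Nat.mul_le_mul_right _ (W.cmin w)).trans (W.cut_node hw)

end World

end

end Pool.Agent.WN
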