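import Pool.Agent.WN.State

/-!
# The search tree and its checker, with parameters
-/

set_option autoImplicit false

namespace Pool.Agent.WN

open Pool.Agent.W3

/-- search trees -/
inductive Tree where
  /-- linear certificate: chains which cover the known elements, rows with multipliers -/
  | lp (cs : List (List ℕ)) (l : List (J × ℕ))
  /-- is there an unknown element with strict down-set exactly `U`? all smaller down-sets are
  saturated -/
  | ask (U : ℕ) (yes no : Tree)
  /-- the down-set `D` is saturated since the numbers of `l` are an antichain outside `D` -/
  | mark (D : ℕ) (l : List ℕ) (t : Tree)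
  /-- the next element of the spine is one of the elements which can be added -/
  | spn (t1 t2 t3 t4 : Tree)
  /-- `a` before `b` or `b` before `a` in the majority order -/
  | maj (a b : ℕ) (t1 t2 : Tree)
  /-- transitivity -/
  | tr (a b c : ℕ) (t : Tree)
  /-- contradiction: `a` before `b` and `b` before `a` -/
  | con (a b : ℕ)
  /-- hazard of `w` at `E` at least / at most `p / q` -/
  | haz (w E p q : ℕ) (t1 t2 : Tree)
  /-- cut row for `w` -/
  | cut (w : ℕ) (l : List (ℕ × ℕ)) (t : Tree)
  /-- the poset is a linear sum: all elements outside `X` are above all elements of `X` -/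
  | dec (X : ℕ)
  /-- the whole poset is known and is a union of less than `w` chains -/
  | cmp (l : List ℕ)
  /-- the state number `i` of the list of bad states is contained in the state -/
  | ref (i : ℕ)
  /-- no use -/
  | fin

/-- the numbers of the list are increasing, outside `D`, and pairwise incomparable -/
def antiq (dn : List ℕ) (D : ℕ) : List ℕ → Bool
  | [] => true
  | i :: l => cond (bit D i) false (cond (Nat.blt i dn.length)
      (cond (l.all fun j => cond (Nat.blt i j) (!(bit (nth dn j) i)) false) (antiq dn D l) false)
      false)

/-- the test of the node `mark` -/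
def markq (P : Par) (s : St) (D : ℕ) (l : List ℕ) : Bool :=
  cond (idl s.dn D) (cond (Nat.beq l.length P.w) (antiq s.dn D l) false) false

/-- the union of masks -/
def orL : List ℕ → ℕ
  | [] => 0
  | m :: l => Nat.lor m (orL l)

/-- the test of the node `cmp` -/
def cmpq (P : Par) (s : St) (l : List ℕ) : Bool :=
  cond (isSat s.sat (Nat.shiftLeft 1 s.dn.length - 1)) (cond (Nat.blt l.length P.w)
    (cond (Nat.beq (orL l) (Nat.shiftLeft 1 s.dn.length - 1)) (l.all (chainA s.dn 0)) false)
    false) false

/-- the state after `x` has become the next element of the spine; `na` is the number of the other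
elements which could be added -/
def spnSt (P : Par) (s : St) (x na : ℕ) : St :=
  { s with
    sp := s.sp ++ [x]
    rw := s.rw ++ [.spn (maskL s.sp) x (P.cst (nbq s.dn (maskL s.sp) (nth s.dn x)) na)] }

/-- the checker; `cutRow` computes the row of a cut, `Γ` is a list of bad states -/
def run (P : Par) (leaf : LeafT)
    (cutRow : St → ℕ → List (ℕ × ℕ) → Option Row) (Γ : List St) : Tree → St → Bool
  | .lp cs l, s => match jrows s l with
    | none => false
    | some l' => leaf cs s.dn s.sat l'
  | .ask U y n, s => cond (askq s U)
      (cond (run P leaf cutRow Γ y { s with dn := s.dn ++ [U] })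
        (run P leaf cutRow Γ n { s with sat := U :: s.sat }) false) false
  | .mark D l t, s => cond (markq P s D l)
      (run P leaf cutRow Γ t { s with sat := D :: s.sat }) false
  | .spn t1 t2 t3 t4, s =>
      cond (isSat s.sat (maskL s.sp))
        (match addA s.dn 0 (maskL s.sp) with
         | [x] => run P leaf cutRow Γ t1 (spnSt P s x 0)
         | [x, y] => cond (run P leaf cutRow Γ t1 (spnSt P s x 1))
             (run P leaf cutRow Γ t2 (spnSt P s y 1)) false
         | [x, y, z] => cond (run P leaf cutRow Γ t1 (spnSt P s x 2))
             (cond (run P leaf cutRow Γ t2 (spnSt P s y 2))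
               (run P leaf cutRow Γ t3 (spnSt P s z 2)) false) false
         | [x, y, z, w] => cond (run P leaf cutRow Γ t1 (spnSt P s x 3))
             (cond (run P leaf cutRow Γ t2 (spnSt P s y 3))
               (cond (run P leaf cutRow Γ t3 (spnSt P s z 3))
                 (run P leaf cutRow Γ t4 (spnSt P s w 3)) false) false) false
         | _ => false) false
  | .maj a b t1 t2, s =>
      cond (cond (Nat.blt a s.dn.length) (cond (Nat.blt b s.dn.length) (!(Nat.beq a b)) false) false)
        (cond (run P leaf cutRow Γ t1 { s with mj := (a, b) :: s.mj })
          (run P leaf cutRow Γ t2 { s with mj := (b, a) :: s.mj }) false) false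
  | .tr a b c t, s => cond (ltq s a b)
      (cond (ltq s b c) (run P leaf cutRow Γ t { s with mj := (a, c) :: s.mj }) false) false
  | .con a b, s => cond (ltq s a b) (ltq s b a) false
  | .haz w E p q t1 t2, s =>
      cond (cond (Nat.blt w s.dn.length) (cond (idl s.dn E)
        (cond (bit E w) false (subm (nth s.dn w) E)) false) false)
        (cond (run P leaf cutRow Γ t1 { s with hz := s.hz ++ [⟨true, w, E, p, q⟩] })
          (run P leaf cutRow Γ t2 { s with hz := s.hz ++ [⟨false, w, E, p, q⟩] }) false) false
  | .cut w l t, s => match cutRow s w l with
    | none => false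
    | some ρ => run P leaf cutRow Γ t { s with rw := s.rw ++ [ρ] }
  | .dec X, s => decq s X
  | .cmp l, s => cmpq P s l
  | .ref i, s => match Γ[i]? with
    | none => false
    | some a => contq a s
  | .fin, _ => false

end Pool.Agent.WN
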