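import Pool.Agent.WN.Run
import Pool.Agent.W3.Sound4

/-!
# Soundness of the structural nodes, with parameters
-/

set_option autoImplicit false

namespace Pool.Agent.WN

open Finset Pool.Agent.W3

variable {V : Type} [Fintype V] [DecidableEq V] {r : V → V → Prop} {φ : ℕ → V} {dn sat : List ℕ}
  {P : Par} {W : World P r} {s : St}

theorem HzOk_update {h : Hz} {k : ℕ} {v : V} (H : HzOk W φ k h) :
    HzOk W (Function.update φ k v) (k + 1) h := by
  obtain ⟨h1, h2, h3, h4, h5, h6⟩ := H
  unfold HzOk
  rw [im_update h2, upd_lt h1]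
  exact ⟨by omega, lt_of_lt_of_le h2 (Nat.pow_le_pow_right (by norm_num) (Nat.le_succ _)),
    h3, h4, h5, h6⟩

theorem RowOk_update {ρ : Row} {k : ℕ} {v : V} (H : RowOk W φ k ρ) :
    RowOk W (Function.update φ k v) (k + 1) ρ := by
  have hp : ∀ m : ℕ, m < 2 ^ k → m < 2 ^ (k + 1) := fun m hm =>
    lt_of_lt_of_le hm (Nat.pow_le_pow_right (by norm_num) (Nat.le_succ _))
  cases ρ with
  | maj a b =>
    obtain ⟨h1, h2, h3⟩ := H
    exact ⟨by omega, by omega, by rw [upd_lt h1, upd_lt h2]; exact h3⟩
  | spn X x c =>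
    obtain ⟨h1, h2, h3, h4, h5, h6⟩ := H
    refine ⟨hp _ h1, by omega, ?_⟩
    rw [im_update h1, upd_lt h2]
    exact ⟨h3, h4, h5, h6⟩
  | gen L R =>
    obtain ⟨h1, h2, h3⟩ := H
    refine ⟨fun t ht => ?_, fun t ht => ?_, ?_⟩
    · rw [im_update (h1 t ht).1]
      exact ⟨hp _ (h1 t ht).1, (h1 t ht).2⟩
    · rw [im_update (h2 t ht).1]
      exact ⟨hp _ (h2 t ht).1, (h2 t ht).2⟩
    · have e1 : (L.map fun t => t.2 * W.G (im (Function.update φ k v) t.1)) =
          L.map fun t => t.2 * W.G (im φ t.1) :=
        List.map_congr_left fun t ht => by rw [im_update (h1 t ht).1]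
      have e2 : (R.map fun t => t.2 * W.G (im (Function.update φ k v) t.1)) =
          R.map fun t => t.2 * W.G (im φ t.1) :=
        List.map_congr_left fun t ht => by rw [im_update (h2 t ht).1]
      rw [e1, e2]
      exact h3

/-- the strict down-set of an unknown element, inside `U`, not all of `U`, is inside some
`U - i`, `i` maximal in `U` -/
theorem Sem.exists_max (S : Sem W φ s) {U : ℕ} (hU : idl s.dn U = true) {v : V}
    (hv : Unk φ s.dn.length v) (hs : ∀ u, r u v → u ≠ v → u ∈ im φ U)
    (hn : ¬ Exact r (im φ U) v) :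
    ∃ i, i < s.dn.length ∧ U.testBit i = true ∧ (unionA s.dn 0 U).testBit i = false ∧
      ∀ u, r u v → u ≠ v → u ∈ im φ (U ^^^ 2 ^ i) := by
  classical
  have hU' := (idl_iff.mp hU).1
  -- the elements of `U` which are not below `v`
  set B := (range s.dn.length).filter fun i => U.testBit i = true ∧ ¬ r (φ i) v with hB
  have hne : B.Nonempty := by
    obtain ⟨u, hu⟩ := not_forall.mp hn
    have hu' : ¬ (r u v ∧ u ≠ v) ∧ u ∈ im φ U := by
      by_cases h : r u v ∧ u ≠ v
      · exact absurd (iff_of_true h (hs u h.1 h.2)) hu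
      · by_cases h' : u ∈ im φ U
        · exact ⟨h, h'⟩
        · exact absurd (iff_of_false h h') hu
    obtain ⟨i, hi, rfl⟩ := mem_im.mp hu'.2
    have hik : i < s.dn.length := lt_of_bit hU' hi
    exact ⟨i, mem_filter.mpr ⟨mem_range.mpr hik, hi, fun h => hu'.1 ⟨h, hv i hik⟩⟩⟩
  set i := B.max' hne with hi
  have hiB : i ∈ B := B.max'_mem hne
  obtain ⟨hik, hiU, hir⟩ := by
    have := mem_filter.mp hiB
    exact (⟨mem_range.mp this.1, this.2.1, this.2.2⟩ :
      i < s.dn.length ∧ U.testBit i = true ∧ ¬ r (φ i) v)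
  refine ⟨i, hik, hiU, ?_, ?_⟩
  · cases hb : (unionA s.dn 0 U).testBit i with
    | false => rfl
    | true =>
      exfalso
      obtain ⟨j, hj, h1, h2⟩ := unionA_bit.mp hb
      rw [Nat.zero_add] at h1
      have hij : i < j := lt_of_bit (S.base.lt j hj) h2
      have hrij : r (φ i) (φ j) := ((S.base.down j hj (φ i)).mpr (mem_im.mpr ⟨i, h2, rfl⟩)).1
      have hjB : j ∈ B := by
        refine mem_filter.mpr ⟨mem_range.mpr hj, h1, fun h => hir ?_⟩
        exact W.po.trans _ _ _ hrij h
      exact absurd (B.le_max' j hjB) (not_le.mpr hij)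
  · intro u hu hne'
    obtain ⟨j, hj, rfl⟩ := mem_im.mp (hs u hu hne')
    refine mem_im.mpr ⟨j, ?_, rfl⟩
    rw [Nat.testBit_xor, hj, Nat.testBit_two_pow]
    have : i ≠ j := by
      rintro h
      rw [h] at hir
      exact hir hu
    simp [this]

/-- soundness of the node `ask` -/
theorem ask_sound (S : Sem W φ s) {U : ℕ} (h : askq s U = true) :
    (∃ φ' : ℕ → V, Sem W φ' { s with dn := s.dn ++ [U] }) ∨
      Sem W φ { s with sat := U :: s.sat } := by
  classical
  unfold askq at h
  rw [cond_false_eq] at h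
  obtain ⟨hU, hA⟩ := h
  have hU' := (idl_iff.mp hU).1
  by_cases hex : ∃ v, Unk φ s.dn.length v ∧ Exact r (im φ U) v
  · left
    obtain ⟨v0, hv0⟩ := hex
    obtain ⟨v, hv, hmin⟩ := exists_min_image
      (univ.filter fun v => Unk φ s.dn.length v ∧ Exact r (im φ U) v) W.pos
      ⟨v0, by simpa using hv0⟩
    simp only [mem_filter, mem_univ, true_and] at hv hmin
    refine ⟨Function.update φ s.dn.length v, ?_⟩
    have hl : (s.dn ++ [U]).length = s.dn.length + 1 := by simp
    have hget : ∀ (i : ℕ) (h : i < (s.dn ++ [U]).length), i < s.dn.length →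
        ∃ h' : i < s.dn.length, (s.dn ++ [U])[i] = s.dn[i] := fun i h h1 =>
      ⟨h1, List.getElem_append_left h1⟩
    have hlast : ∀ (i : ℕ) (h : i < (s.dn ++ [U]).length), ¬ i < s.dn.length →
        i = s.dn.length ∧ (s.dn ++ [U])[i] = U := by
      intro i h h1
      have h2 : i = s.dn.length := by omega
      refine ⟨h2, ?_⟩
      subst h2
      simp
    have hunk : ∀ u, Unk (Function.update φ s.dn.length v) (s.dn.length + 1) u →
        Unk φ s.dn.length u ∧ u ≠ v := by
      intro u hu
      refine ⟨fun i hi => ?_, ?_⟩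
      · have := hu i (by omega)
        rwa [upd_lt hi] at this
      · have := hu s.dn.length (by omega)
        rw [Function.update_self] at this
        exact this.symm
    refine ⟨S.base.add hU' hv.1 hv.2, ?_, ?_, ?_, ?_, ?_, ?_⟩
    · intro i h u hu he
      change Unk _ (s.dn ++ [U]).length u at hu
      rw [hl] at hu
      obtain ⟨hu1, hu2⟩ := hunk u hu
      by_cases h1 : i < s.dn.length
      · obtain ⟨h', e⟩ := hget i h h1
        change Exact r (im _ (s.dn ++ [U])[i]) u at he
        rw [e, im_update (S.base.lt' i h')] at he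
        rw [upd_lt h1]
        exact S.mn i h' u hu1 he
      · obtain ⟨h', e⟩ := hlast i h h1
        change Exact r (im _ (s.dn ++ [U])[i]) u at he
        rw [e, im_update hU'] at he
        rw [h', Function.update_self]
        refine lt_of_le_of_ne (hmin u ⟨hu1, he⟩) fun h2 => hu2 (W.pos_inj h2.symm)
    · intro i j hi hj hij he
      change (s.dn ++ [U])[i] = (s.dn ++ [U])[j] at he
      have hj' : j < (s.dn ++ [U]).length := hj
      have h1 : i < s.dn.length := by omega
      obtain ⟨h', e⟩ := hget i hi h1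
      rw [e] at he
      by_cases h2 : j < s.dn.length
      · obtain ⟨h'', e'⟩ := hget j hj h2
        rw [e'] at he
        rw [upd_lt h1, upd_lt h2]
        exact S.tw i j h' h'' hij he
      · obtain ⟨h'', e'⟩ := hlast j hj h2
        rw [e'] at he
        rw [upd_lt h1, h'', Function.update_self]
        refine S.mn i h' v hv.1 ?_
        rw [he]
        exact hv.2
    · intro j h
      have h2 := S.sp j h
      change s.sp[j] < (s.dn ++ [U]).length ∧ _
      rw [hl]
      refine ⟨by omega, ?_⟩
      change W.pos (Function.update φ s.dn.length v s.sp[j]) = j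
      rw [upd_lt h2.1]
      exact h2.2
    · intro p hp
      have h2 := S.mj p hp
      change p.1 < (s.dn ++ [U]).length ∧ p.2 < (s.dn ++ [U]).length ∧ _
      rw [hl]
      refine ⟨by omega, by omega, ?_⟩
      rw [upd_lt h2.1, upd_lt h2.2.1]
      exact h2.2.2
    · intro f hf
      change HzOk W _ (s.dn ++ [U]).length f
      rw [hl]
      exact HzOk_update (S.hz f hf)
    · intro ρ hρ
      change RowOk W _ (s.dn ++ [U]).length ρ
      rw [hl]
      exact RowOk_update (S.rw ρ hρ)
  · right
    refine ⟨⟨S.base.inj, S.base.lt, S.base.down, ?_, ?_⟩, S.mn, S.tw, S.sp, S.mj, S.hz, S.rw⟩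
    · intro D hD
      rcases List.mem_cons.mp hD with rfl | hD
      · exact hU'
      · exact S.base.satlt D hD
    · intro D hD v hv
      rcases List.mem_cons.mp hD with rfl | hD
      · by_contra hcon
        push Not at hcon
        obtain ⟨i, hi, hiU, him, hsub⟩ := S.exists_max hU hv hcon fun he => hex ⟨v, hv, he⟩
        have h1 := askA_spec hA i hi (by rwa [Nat.zero_add]) (by rwa [Nat.zero_add])
        rw [Nat.zero_add] at h1
        obtain ⟨u, hu1, hu2, hu3⟩ := S.base.isSat h1 hv
        exact hu3 (hsub u hu1 hu2)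
      · exact S.base.sat D hD v hv

/-- the elements of an antichain list -/
theorem antiq_spec {dn : List ℕ} {D : ℕ} {l : List ℕ} (h : antiq dn D l = true) :
    l.Pairwise (fun i j => i < j ∧ bit (nth dn j) i = false) ∧
      ∀ i ∈ l, D.testBit i = false ∧ i < dn.length := by
  induction l with
  | nil => exact ⟨List.Pairwise.nil, by simp⟩
  | cons i l ih =>
    rw [show antiq dn D (i :: l) = cond (bit D i) false (cond (Nat.blt i dn.length)
      (cond (l.all fun j => cond (Nat.blt i j) (!(bit (nth dn j) i)) false) (antiq dn D l) false)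
      false) from rfl] at h
    cases hb : bit D i with
    | true => rw [hb] at h; exact absurd h (by simp)
    | false =>
      rw [hb, cond_false, cond_false_eq, cond_false_eq, blt_iff, List.all_eq_true] at h
      obtain ⟨h1, h2, h3⟩ := h
      obtain ⟨i1, i2⟩ := ih h3
      refine ⟨List.pairwise_cons.mpr ⟨fun j hj => ?_, i1⟩, fun j hj => ?_⟩
      · have := h2 j hj
        rw [cond_false_eq, blt_iff] at this
        refine ⟨this.1, ?_⟩
        cases hb' : bit (nth dn j) i with
        | false => rfl
        | true => rw [hb'] at this; exact absurd this.2 (by simp)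
      · rcases List.mem_cons.mp hj with rfl | hj
        · rw [← bit_eq]
          exact ⟨hb, h1⟩
        · exact i2 j hj

/-- soundness of the node `mark` -/
theorem mark_sound (S : Sem W φ s) {D : ℕ} {l : List ℕ} (h : markq P s D l = true) :
    Sem W φ { s with sat := D :: s.sat } := by
  unfold markq at h
  rw [cond_false_eq, cond_false_eq, nbeq] at h
  obtain ⟨hD, hlen, hl⟩ := h
  obtain ⟨hpw, hmem⟩ := antiq_spec hl
  refine ⟨⟨S.base.inj, S.base.lt, S.base.down, ?_, ?_⟩, S.mn, S.tw, S.sp, S.mj, S.hz, S.rw⟩
  · intro D' hD'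
    rcases List.mem_cons.mp hD' with rfl | hD'
    · exact (idl_iff.mp hD).1
    · exact S.base.satlt D' hD'
  · intro D' hD' v hv
    rcases List.mem_cons.mp hD' with rfl | hD'
    swap
    · exact S.base.sat D' hD' v hv
    by_contra hcon
    push Not at hcon
    have hDlt := (idl_iff.mp hD).1
    -- known elements outside `D'` are incomparable to `v`
    have hkv : ∀ a, a < s.dn.length → D'.testBit a = false → ¬ r (φ a) v ∧ ¬ r v (φ a) := by
      intro a ha hb
      refine ⟨fun h => ?_, fun h => ?_⟩
      · have := hcon (φ a) h (hv a ha)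
        rw [S.base.mem_iff hDlt ha, hb] at this
        exact Bool.false_ne_true this
      · exact S.base.known_down (fun h' => h' a ha rfl) h hv
    have hkk : ∀ a b, a < b → (hb : b < s.dn.length) → s.dn[b].testBit a = false →
        φ a ≠ φ b ∧ ¬ r (φ a) (φ b) ∧ ¬ r (φ b) (φ a) := by
      intro a b hab hb hbit
      have ha : a < s.dn.length := hab.trans hb
      have hne : φ a ≠ φ b := fun h => hab.ne (S.base.inj a ha b hb h)
      refine ⟨hne, fun h => ?_, fun h => ?_⟩
      · have := (S.base.down b hb (φ a)).mp ⟨h, hne⟩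
        rw [S.base.mem_iff (S.base.lt' b hb) ha, hbit] at this
        exact Bool.false_ne_true this
      · have := (S.base.down a ha (φ b)).mp ⟨h, hne.symm⟩
        rw [S.base.mem_iff (S.base.lt' a ha) hb] at this
        exact absurd (lt_of_bit (S.base.lt a ha) this) (not_lt.mpr hab.le)
    have hnd : l.Nodup := hpw.imp fun h => h.1.ne
    have hpair : ∀ i ∈ l, ∀ j ∈ l, i ≠ j → ¬ r (φ i) (φ j) := by
      have h1 : l.Pairwise fun i j => ¬ r (φ i) (φ j) ∧ ¬ r (φ j) (φ i) := by
        refine hpw.imp_of_mem fun {i j} hi hj h => ?_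
        have hj' := (hmem j hj).2
        have := hkk i j h.1 hj' (by rw [← bit_eq, ← nth_eq hj']; exact h.2)
        exact this.2
      intro i hi j hj hij
      have h1' : l.Pairwise fun i j => i ≠ j → ¬ r (φ i) (φ j) ∧ ¬ r (φ j) (φ i) := by
        refine h1.imp ?_
        intro a b h _
        exact h
      have h1'' : l.Pairwise (flip fun i j => i ≠ j → ¬ r (φ i) (φ j) ∧ ¬ r (φ j) (φ i)) := by
        refine h1.imp ?_
        intro a b h _
        exact ⟨h.2, h.1⟩
      have h2 := List.Pairwise.forall_of_forall_of_flip (fun x _ h => absurd rfl h) h1' h1''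
      exact (h2 hi hj hij).1
    have hcard := W.wid (insert v (l.toFinset.image φ)) (by
      intro a ha b hb hab
      rw [mem_insert] at ha hb
      rcases ha with rfl | ha <;> rcases hb with rfl | hb
      · exact absurd rfl hab
      · obtain ⟨j, hj, rfl⟩ := mem_image.mp hb
        rw [List.mem_toFinset] at hj
        exact (hkv j (hmem j hj).2 (hmem j hj).1).2
      · obtain ⟨j, hj, rfl⟩ := mem_image.mp ha
        rw [List.mem_toFinset] at hj
        exact (hkv j (hmem j hj).2 (hmem j hj).1).1
      · obtain ⟨i, hi, rfl⟩ := mem_image.mp ha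
        obtain ⟨j, hj, rfl⟩ := mem_image.mp hb
        rw [List.mem_toFinset] at hi hj
        exact hpair i hi j hj fun h => hab (by rw [h]))
    have hvn : v ∉ l.toFinset.image φ := by
      intro h
      obtain ⟨j, hj, h'⟩ := mem_image.mp h
      rw [List.mem_toFinset] at hj
      exact hv j (hmem j hj).2 h'
    rw [card_insert_of_notMem hvn, card_image_of_injOn, List.toFinset_card_of_nodup hnd,
      hlen] at hcard
    · omega
    · intro i hi j hj hij
      rw [mem_coe, List.mem_toFinset] at hi hj
      exact S.base.inj i (hmem i hi).2 j (hmem j hj).2 hij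

end Pool.Agent.WN
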