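import Pool.Agent.WN.Sound2

/-!
# Soundness of the spine node, with parameters
-/

set_option autoImplicit false

namespace Pool.Agent.WN

open Finset Pool.Agent.W3

variable {V : Type} [Fintype V] [DecidableEq V] {r : V → V → Prop} {P : Par} {W : World P r} {φ : ℕ → V}
  {s : St}

theorem World.surj (W : World P r) {m : ℕ} (hm : m < Fintype.card V) : ∃ v, W.pos v = m := by
  have h1 : univ.image W.pos = range (Fintype.card V) := by
    apply eq_of_subset_of_card_le
    · intro x hx
      obtain ⟨v, _, rfl⟩ := mem_image.mp hx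
      exact mem_range.mpr (W.pos_lt v)
    · rw [card_range, card_image_of_injective _ W.pos_inj]
      exact le_of_eq rfl
  have h2 : m ∈ univ.image W.pos := by rw [h1]; exact mem_range.mpr hm
  obtain ⟨v, _, h⟩ := mem_image.mp h2
  exact ⟨v, h⟩

/-- outside a down-set `D`, every element is above an element which can be added to `D` -/
theorem World.exists_nx (W : World P r) {D : Finset V} (hD : Dn r D) {b : V} (hb : b ∉ D) :
    ∃ a ∈ nx r D, r a b := by
  classical
  obtain ⟨a, ha, hmin⟩ := exists_min_image (univ.filter fun a => a ∉ D ∧ r a b) W.pos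
    ⟨b, by simp [hb, W.po.refl b]⟩
  simp only [mem_filter, mem_univ, true_and] at ha hmin
  refine ⟨a, ?_, ha.2⟩
  simp only [nx, mem_filter, mem_univ, true_and]
  refine ⟨ha.1, fun v hv u hu => ?_⟩
  rw [mem_insert] at hv ⊢
  rcases hv with rfl | hv
  · by_cases he : u = v
    · exact Or.inl he
    · right
      by_contra hu'
      have h1 := hmin u ⟨hu', W.po.trans _ _ _ hu ha.2⟩
      have h2 := W.pos_mono u v hu
      exact he (W.pos_inj (le_antisymm h2 h1))
  · exact Or.inr (hD v hv u hu)

/-- the elements which can be added to a saturated down-set -/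
theorem Sem.nx_eq (S : Sem W φ s) {X : ℕ} (hlt : X < 2 ^ s.dn.length) (hD : Dn r (im φ X))
    (h : isSat s.sat X = true) : nx r (im φ X) = (addA s.dn 0 X).toFinset.image φ := by
  ext v
  rw [mem_nx', mem_image]
  constructor
  · rintro ⟨h1, h2⟩
    by_cases hv : Unk φ s.dn.length v
    · obtain ⟨u, hu1, hu2, hu3⟩ := S.base.isSat h hv
      have := h2 v (mem_insert_self _ _) u hu1
      rw [mem_insert] at this
      rcases this with h4 | h4
      · exact absurd h4 hu2
      · exact absurd h4 hu3
    · unfold Unk at hv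
      push Not at hv
      obtain ⟨i, hi, rfl⟩ := hv
      refine ⟨i, ?_, rfl⟩
      rw [List.mem_toFinset, addA_mem]
      refine ⟨i, hi, by ring, ?_, ?_⟩
      · rw [Nat.zero_add]
        cases hb : X.testBit i with
        | false => rfl
        | true => exact absurd (mem_im.mpr ⟨i, hb, rfl⟩) h1
      · refine subm_iff.mpr fun j hj => ?_
        have hjk : j < s.dn.length := lt_of_bit (S.base.lt' i hi) hj
        have h3 := S.rel hi hj
        rw [← S.base.mem_iff hlt hjk]
        have := h2 _ (mem_insert_self _ _) (φ j) h3.1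
        rw [mem_insert] at this
        exact this.resolve_left h3.2
  · rintro ⟨i, hi, rfl⟩
    rw [List.mem_toFinset, addA_mem] at hi
    obtain ⟨j, hj, h1, h2, h3⟩ := hi
    rw [Nat.zero_add] at h1 h2
    subst h1
    refine ⟨?_, ?_⟩
    · rw [S.base.mem_iff hlt hj, h2]
      exact Bool.false_ne_true
    · exact S.dn_insert hj (S.base.idl_of_dn hlt hD) (by rw [nth_eq hj]; exact h3)

theorem Sem.addA_lt (S : Sem W φ s) {X x : ℕ} (h : x ∈ addA s.dn 0 X) :
    x < s.dn.length ∧ X.testBit x = false ∧ subm (nth s.dn x) X = true := by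
  obtain ⟨j, hj, h1, h2, h3⟩ := addA_mem.mp h
  rw [Nat.zero_add] at h1 h2
  subst h1
  exact ⟨hj, h2, by rw [nth_eq hj]; exact h3⟩

theorem Sem.nx_card (S : Sem W φ s) {X : ℕ} (hlt : X < 2 ^ s.dn.length) (hD : Dn r (im φ X))
    (h : isSat s.sat X = true) : (nx r (im φ X)).card = (addA s.dn 0 X).length := by
  rw [S.nx_eq hlt hD h, card_image_of_injOn, List.toFinset_card_of_nodup addA_nodup]
  intro i hi j hj hij
  rw [mem_coe, List.mem_toFinset] at hi hj
  exact S.base.inj i (S.addA_lt hi).1 j (S.addA_lt hj).1 hij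

open Classical in
/-- the number of maximal elements of `X` which are not below `x` -/
theorem Sem.nbq_eq (S : Sem W φ s) {X x : ℕ} (hlt : X < 2 ^ s.dn.length)
    (hD : Dn r (im φ X)) (hx : x < s.dn.length) (hxX : X.testBit x = false) :
    nbq s.dn X (nth s.dn x) = ((pv r (im φ X)).filter fun a => ¬ r a (φ x)).card := by
  have hbit : ∀ j, (Nat.xor X (Nat.land X (Nat.lor (nth s.dn x) (unionA s.dn 0 X)))).testBit j =
      true ↔ X.testBit j = true ∧ (nth s.dn x).testBit j = false ∧
        (unionA s.dn 0 X).testBit j = false := by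
    intro j
    show (X ^^^ (X &&& (nth s.dn x ||| unionA s.dn 0 X))).testBit j = true ↔ _
    rw [Nat.testBit_xor, Nat.testBit_land, Nat.testBit_lor]
    cases X.testBit j <;> cases (nth s.dn x).testBit j <;>
      cases (unionA s.dn 0 X).testBit j <;> simp
  unfold nbq
  rw [popA_eq]
  have himg : ((range s.dn.length).filter fun j =>
      (Nat.xor X (Nat.land X (Nat.lor (nth s.dn x) (unionA s.dn 0 X)))).testBit (0 + j) =
        true).image φ = (pv r (im φ X)).filter fun a => ¬ r a (φ x) := by
    ext v
    rw [mem_image, mem_filter, mem_pv']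
    constructor
    · rintro ⟨j, hj, rfl⟩
      rw [mem_filter, mem_range, Nat.zero_add, hbit] at hj
      obtain ⟨hjk, hjX, h1, h2⟩ := hj
      refine ⟨⟨mem_im.mpr ⟨j, hjX, rfl⟩, ?_⟩, ?_⟩
      · intro u hu z hz
        rw [mem_erase] at hu ⊢
        refine ⟨?_, hD u hu.2 z hz⟩
        rintro rfl
        obtain ⟨i, hi, rfl⟩ := mem_im.mp hu.2
        have hik : i < s.dn.length := lt_of_bit hlt hi
        have h3 := (S.base.down i hik (φ j)).mp ⟨hz, hu.1.symm⟩
        rw [S.base.mem_iff (S.base.lt' i hik) hjk] at h3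
        have h4 : (unionA s.dn 0 X).testBit j = true :=
          unionA_bit.mpr ⟨i, hik, by rwa [Nat.zero_add], h3⟩
        rw [h2] at h4
        exact Bool.false_ne_true h4
      · intro hr
        have hne : φ j ≠ φ x := by
          intro he
          have := S.base.inj j hjk x hx he
          rw [this, hxX] at hjX
          exact Bool.false_ne_true hjX
        have h3 := (S.base.down x hx (φ j)).mp ⟨hr, hne⟩
        rw [S.base.mem_iff (S.base.lt' x hx) hjk, ← nth_eq hx, h1] at h3
        exact Bool.false_ne_true h3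
    · rintro ⟨⟨hv, hv'⟩, hr⟩
      obtain ⟨j, hj, rfl⟩ := mem_im.mp hv
      have hjk : j < s.dn.length := lt_of_bit hlt hj
      refine ⟨j, ?_, rfl⟩
      rw [mem_filter, mem_range, Nat.zero_add, hbit]
      refine ⟨hjk, hj, ?_, ?_⟩
      · cases hb : (nth s.dn x).testBit j with
        | false => rfl
        | true =>
          rw [nth_eq hx] at hb
          exact absurd (S.rel hx hb).1 hr
      · cases hb : (unionA s.dn 0 X).testBit j with
        | false => rfl
        | true =>
          obtain ⟨i, hi, h1, h2⟩ := unionA_bit.mp hb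
          rw [Nat.zero_add] at h1
          have h3 := S.rel hi h2
          have h4 : φ i ∈ (im φ X).erase (φ j) :=
            mem_erase.mpr ⟨h3.2.symm, mem_im.mpr ⟨i, h1, rfl⟩⟩
          have h5 := hv' _ h4 _ h3.1
          exact absurd rfl (mem_erase.mp h5).1
  rw [← himg, card_image_of_injOn]
  intro i hi j hj hij
  rw [mem_coe, mem_filter, mem_range] at hi hj
  exact S.base.inj i hi.1 j hj.1 hij

/-- the set of the spine elements is the set of the first elements of the majority order -/
theorem Sem.spine_set (S : Sem W φ s) :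
    im φ (maskL s.sp) = univ.filter fun v => W.pos v < s.sp.length := by
  ext v
  rw [mem_im, mem_filter]
  constructor
  · rintro ⟨i, hi, rfl⟩
    rw [maskL_bit] at hi
    obtain ⟨j, hj, rfl⟩ := List.mem_iff_getElem.mp hi
    exact ⟨mem_univ _, by rw [(S.sp j hj).2]; exact hj⟩
  · rintro ⟨_, hv⟩
    refine ⟨s.sp[W.pos v], maskL_bit.mpr (List.getElem_mem hv), ?_⟩
    exact W.pos_inj (S.sp _ hv).2

theorem Sem.spine_lt (S : Sem W φ s) : maskL s.sp < 2 ^ s.dn.length := by
  apply lt_two_pow_of_bits
  intro i hi
  rw [maskL_bit] at hi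
  obtain ⟨j, hj, rfl⟩ := List.mem_iff_getElem.mp hi
  exact (S.sp j hj).1

/-- soundness of the spine node -/
theorem spn_sound (S : Sem W φ s) (h : isSat s.sat (maskL s.sp) = true)
    (hne : addA s.dn 0 (maskL s.sp) ≠ []) :
    ∃ x ∈ addA s.dn 0 (maskL s.sp),
      Sem W φ (spnSt P s x ((addA s.dn 0 (maskL s.sp)).length - 1)) := by
  classical
  set X := maskL s.sp with hX
  have hset := S.spine_set
  have hlt := S.spine_lt
  rw [← hX] at hset hlt
  have hD : Dn r (im φ X) := by
    rw [hset]
    intro v hv u hu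
    rw [mem_filter] at hv ⊢
    exact ⟨mem_univ _, lt_of_le_of_lt (W.pos_mono u v hu) hv.2⟩
  obtain ⟨y, hy⟩ := List.exists_mem_of_ne_nil _ hne
  have hcard : s.sp.length < Fintype.card V := by
    by_contra hcon
    have h1 := S.addA_lt hy
    have h2 : φ y ∉ im φ X := by
      rw [S.base.mem_iff hlt h1.1, h1.2.1]
      exact Bool.false_ne_true
    rw [hset, mem_filter] at h2
    exact h2 ⟨mem_univ _, lt_of_lt_of_le (W.pos_lt _) (not_lt.mp hcon)⟩
  obtain ⟨w, hw⟩ := W.surj hcard
  have hbef : before W.pos w = im φ X := by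
    rw [hset]
    unfold before
    rw [hw]
  have hwnx : w ∈ nx r (im φ X) := by
    rw [mem_nx']
    refine ⟨?_, ?_⟩
    · rw [hset, mem_filter, hw]
      exact fun h => absurd h.2 (lt_irrefl _)
    · intro v hv u hu
      rw [mem_insert] at hv ⊢
      rcases hv with rfl | hv
      · by_cases he : u = v
        · exact Or.inl he
        · right
          rw [hset, mem_filter]
          refine ⟨mem_univ _, ?_⟩
          rw [← hw]
          exact S.pos_lt hu he
      · exact Or.inr (hD v hv u hu)
  have hwnx' := hwnx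
  rw [S.nx_eq hlt hD h, mem_image] at hwnx'
  obtain ⟨x, hx, hxw⟩ := hwnx'
  rw [List.mem_toFinset] at hx
  obtain ⟨hxk, hxX, hxs⟩ := S.addA_lt hx
  refine ⟨x, hx, ⟨S.base, S.mn, S.tw, ?_, S.mj, S.hz, ?_⟩⟩
  · intro j hj
    change j < (s.sp ++ [x]).length at hj
    change (s.sp ++ [x])[j] < s.dn.length ∧ W.pos (φ (s.sp ++ [x])[j]) = j
    rcases Nat.lt_or_ge j s.sp.length with h1 | h1
    · rw [List.getElem_append_left h1]
      exact S.sp j h1
    · have h2 : j = s.sp.length := by
        rw [List.length_append, List.length_singleton] at hj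
        omega
      subst h2
      simp only [List.getElem_concat_length]
      exact ⟨hxk, by rw [hxw]; exact hw⟩
  · intro ρ hρ
    change ρ ∈ s.rw ++ [_] at hρ
    rcases List.mem_append.mp hρ with hρ | hρ
    · exact S.rw ρ hρ
    · rw [List.mem_singleton] at hρ
      subst hρ
      have hn : φ x ∉ im φ X := by
        rw [S.base.mem_iff hlt hxk, hxX]
        exact Bool.false_ne_true
      have hE := S.base.idl_of_dn hlt hD
      refine ⟨hlt, hxk, hD, hn, S.dn_insert hxk hE hxs, ?_⟩
      have h1 := W.spine (φ x)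
      rw [hxw] at h1 ⊢
      rw [hbef] at h1
      have h2 : nbl r W.pos w = nbq s.dn X (nth s.dn x) := by
        rw [S.nbq_eq hlt hD hxk hxX]
        unfold nbl
        rw [hbef, ← hxw]
      have h3 : nab r W.pos w = (addA s.dn 0 X).length - 1 := by
        unfold nab
        rw [hbef, card_erase_of_mem hwnx, S.nx_card hlt hD h]
      rw [h2, h3] at h1
      exact h1

end Pool.Agent.WN
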