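import Pool.Agent.WN.World
import Pool.Agent.W3.Bits

/-!
# The meaning of the states, with parameters
-/

set_option autoImplicit false

namespace Pool.Agent.WN

open Finset Pool.Agent.W3

variable {V : Type}

variable [Fintype V] [DecidableEq V] {r : V → V → Prop} {P : Par}

/-- the meaning of a hazard fact -/
def HzOk (W : World P r) (φ : ℕ → V) (k : ℕ) (h : Hz) : Prop :=
  h.w < k ∧ h.E < 2 ^ k ∧ Dn r (im φ h.E) ∧ φ h.w ∉ im φ h.E ∧
    Dn r (insert (φ h.w) (im φ h.E)) ∧
    (if h.up = true then h.p * W.G (im φ h.E) ≤ h.q * W.G (insert (φ h.w) (im φ h.E))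
      else h.q * W.G (insert (φ h.w) (im φ h.E)) ≤ h.p * W.G (im φ h.E))

/-- the meaning of a row -/
def RowOk (W : World P r) (φ : ℕ → V) (k : ℕ) : Row → Prop
  | .maj a b => a < k ∧ b < k ∧ W.pos (φ a) < W.pos (φ b)
  | .spn X x c => X < 2 ^ k ∧ x < k ∧ Dn r (im φ X) ∧ φ x ∉ im φ X ∧
      Dn r (insert (φ x) (im φ X)) ∧
      c * W.G ∅ ≤ 1000000 * (W.e (im φ X) * W.G (insert (φ x) (im φ X)))
  | .gen L R => (∀ t ∈ L, t.1 < 2 ^ k ∧ Dn r (im φ t.1)) ∧
      (∀ t ∈ R, t.1 < 2 ^ k ∧ Dn r (im φ t.1)) ∧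
      (L.map fun t => t.2 * W.G (im φ t.1)).sum ≤ (R.map fun t => t.2 * W.G (im φ t.1)).sum

/-- the meaning of a state -/
structure Sem (W : World P r) (φ : ℕ → V) (s : St) : Prop where
  base : Base r φ s.dn s.sat
  /-- among the elements with a given strict down-set the known ones come first -/
  mn : ∀ (i : ℕ) (h : i < s.dn.length), ∀ v, Unk φ s.dn.length v → Exact r (im φ s.dn[i]) v →
    W.pos (φ i) < W.pos v
  /-- known elements with the same strict down-set are in the order of discovery -/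
  tw : ∀ (i j : ℕ) (hi : i < s.dn.length) (hj : j < s.dn.length), i < j → s.dn[i] = s.dn[j] →
    W.pos (φ i) < W.pos (φ j)
  sp : ∀ (j : ℕ) (h : j < s.sp.length), s.sp[j] < s.dn.length ∧ W.pos (φ s.sp[j]) = j
  mj : ∀ p ∈ s.mj, p.1 < s.dn.length ∧ p.2 < s.dn.length ∧ W.pos (φ p.1) < W.pos (φ p.2)
  hz : ∀ h ∈ s.hz, HzOk W φ s.dn.length h
  rw : ∀ ρ ∈ s.rw, RowOk W φ s.dn.length ρ

/-- a state which describes no world -/
def Bad (P : Par) (s : St) : Prop :=
  ∀ (V : Type) [Fintype V] [DecidableEq V] (r : V → V → Prop) (W : World P r) (φ : ℕ → V),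
    ¬ Sem W φ s

/-- the type of the leaves: chains, down-sets, saturated masks, rows with multipliers -/
abbrev LeafT := List (List ℕ) → List ℕ → List ℕ → List (Row × ℕ) → Bool

/-- soundness of the leaf: `leaf cs dn sat rows = true`, `Base`, and all rows true imply
`False` -/
def LeafSound (P : Par) (leaf : LeafT) : Prop :=
  ∀ (V : Type) [Fintype V] [DecidableEq V] (r : V → V → Prop) (W : World P r) (φ : ℕ → V)
    (cs : List (List ℕ)) (dn sat : List ℕ) (rows : List (Row × ℕ)),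
    Base r φ dn sat → (∀ ρ ∈ rows, RowOk W φ dn.length ρ.1) → leaf cs dn sat rows = true → False

end Pool.Agent.WN
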